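import Pool.Agent.N579.HI.Fin

/-!
Hindman's theorem for sums of at most three elements solves the increasing polarized Ramsey
theorem for pairs relative to the double jump: for every `Δ⁰₃` colouring `g` of pairs with `k`
colours there is a computable colouring `c` of the positive integers such that every infinite set
which is homogeneous for `c` with respect to sums of at most three distinct elements computes an
increasing polarized homogeneous pair of sequences for `g`.
-/

namespace Pool.Agent.Results.MP_69fea5_lc.PolarizedRamseyOverDoubleJump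

open Pool.Agent.H645R2.HT Pool.Agent.N579.HI Pool.Agent.Helper446.Oracle

/-- The characteristic function of a set of natural numbers, as a (total) partial function. -/
noncomputable def char (B : Set ℕ) : ℕ →. ℕ := by
  classical exact fun n => Part.some (if n ∈ B then 1 else 0)

/-- Let `g` be a colouring of pairs of natural numbers with `k` colours whose graph is `Σ⁰₃`
(equivalently: `g` is computable in `0''`). There is a computable colouring `c` of the positive
integers with `16 (2 k² + 1)` colours such that for every infinite set `X` of positive integers,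
all of whose sums of at most three distinct elements get the same colour:

* if `x, y ∈ X` and all positions of nonzero ternary digits of `y` are above those of `x`, then
  `g (la x) (mu x) = g (la x) (mu y)`, where `la n` and `mu n` are the lowest and the highest
  position of a nonzero ternary digit of `n`;
* there are sequences `α 0 ≤ β 0 < α 1 ≤ β 1 < ...` computable in `X` and a colour `t` with
  `g (α i) (β j) = t` whenever `i ≤ j`. -/
theorem result (k : ℕ) (g : ℕ → ℕ → ℕ) (hgk : ∀ a b, g a b < k)
    (R : ℕ → ℕ → ℕ → ℕ → ℕ → ℕ → Bool)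
    (hR : Computable fun q : ℕ × ℕ × ℕ × ℕ × ℕ × ℕ =>
      R q.1 q.2.1 q.2.2.1 q.2.2.2.1 q.2.2.2.2.1 q.2.2.2.2.2)
    (hg : ∀ a b t, g a b = t ↔ ∃ u, ∀ v, ∃ w, R a b t u v w = true) :
    ∃ c : ℕ → Fin (16 * (2 * k ^ 2 + 1)), Computable c ∧
      ∀ X : Set ℕ, X.Infinite → 0 ∉ X →
        (∃ i, ∀ F : Finset ℕ, (F : Set ℕ) ⊆ X → F.Nonempty → F.card ≤ 3 →
          c (∑ n ∈ F, n) = i) →
        (∀ x ∈ X, ∀ y ∈ X, mu x < la y → g (la x) (mu x) = g (la x) (mu y)) ∧
        ∃ (α β : ℕ → ℕ) (t : ℕ),
          TuringReducible (fun n => Part.some (α n)) (char X) ∧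
          TuringReducible (fun n => Part.some (β n)) (char X) ∧
          (∀ n, α n ≤ β n ∧ β n < α (n + 1)) ∧ ∀ i j, i ≤ j → g (α i) (β j) = t := by
  classical
  have hk0 : 0 < k := lt_of_le_of_lt (Nat.zero_le _) (hgk 0 0)
  have hk := HA_lt (R := R) hk0
  have hcv := HA_cv (R := R) (k := k)
  have hlim := HA_lim (R := R) hgk hg
  refine ⟨cc (HA R k) k, c_cc (c_HA hR) k, fun X hX h0 hc => ?_⟩
  have hs := sol (k := k) hX h0 hc
  refine ⟨fun x hx y hy hxy => limit_eq hk hcv hs.ps hs.far hs.ch hs.eE hlim hx hy hxy, ?_⟩
  obtain ⟨f, t, f1, f2, f3, f4⟩ := hs.pairs hk hcv hlim hgk hR hg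
  have hT : ∀ q : ℕ → ℕ, Computable q → TuringReducible (fun n => Part.some (q (f n)))
      (char X) := fun q hq => tot_tr ((TotIn.of_comp (A := X) hq).comp f1)
  exact ⟨fun n => la (f n), fun n => mu (f n), t, hT la (c_la Computable.id),
    hT mu (c_mu Computable.id), fun n => ⟨la_le_mu (hs.ps _ (f2 n)), f3 n⟩, f4⟩

end Pool.Agent.Results.MP_69fea5_lc.PolarizedRamseyOverDoubleJump
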