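import Pool.Agent.N579.HJ.Rel

/-!
Hindman's theorem for sums of at most two elements solves the increasing polarized Ramsey theorem
for pairs relative to the first jump: for every `Δ⁰₂` colouring `g` of pairs with `k` colours there
is a computable colouring `c` of the positive integers with `4 k` colours such that every infinite
set which is homogeneous for `c` with respect to sums of at most two distinct elements computes an
increasing polarized homogeneous pair of sequences for `g`.

Idea: a second component of `c` makes the highest position `mu l` of an element `l` bound the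
modulus of the first jump up to its lowest position `la l`.  The third component is the sum modulo
`k`, over the pairs `p < q` of consecutive nonzero digits of `n`, of the colours `g p b(q)`, with a
slow function `b`, as computed at stage `mu n`.  For `h < l` in the set the colours of `l` and
`h + l` are equal, hence the colour `g (mu h) b(la l)` depends on `h` only.
-/

namespace Pool.Agent.Results.MP_69fea5_lc.PolarizedRamseySumsOfTwo

open Pool.Agent.H645R2.HT Pool.Agent.N579.HI Pool.Agent.N579.HJ Pool.Agent.Helper446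
  Pool.Agent.Helper446.RE Pool.Agent.Helper446.Oracle Pool.Agent.TH747.HS

/-- The characteristic function of a set of natural numbers, as a (total) partial function. -/
noncomputable def char (B : Set ℕ) : ℕ →. ℕ := by
  classical exact fun n => Part.some (if n ∈ B then 1 else 0)

/-- The number of the colour. -/
def cv (R : ℕ → ℕ → ℕ → ℕ → ℕ → Bool) (k n : ℕ) : ℕ :=
  (bif b0 n then 1 else 0) + 2 * (bif C (g1 (WR R)) n then 1 else 0) + 4 * (cG R k n % k)

theorem cv_lt (R : ℕ → ℕ → ℕ → ℕ → ℕ → Bool) {k : ℕ} (hk : 0 < k) (n : ℕ) :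
    cv R k n < 4 * k := by
  unfold cv
  have h2 : cG R k n % k < k := Nat.mod_lt _ hk
  cases b0 n <;> cases C (g1 (WR R)) n <;> simp only [cond_true, cond_false] <;> omega

theorem cv_inj {R : ℕ → ℕ → ℕ → ℕ → ℕ → Bool} {k a b : ℕ} (h : cv R k a = cv R k b) :
    b0 a = b0 b ∧ C (g1 (WR R)) a = C (g1 (WR R)) b ∧ cG R k a % k = cG R k b % k := by
  unfold cv at h
  generalize cG R k a % k = x at h ⊢
  generalize cG R k b % k = y at h ⊢
  generalize b0 a = p at h ⊢
  generalize b0 b = q at h ⊢
  generalize C (g1 (WR R)) a = r at h ⊢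
  generalize C (g1 (WR R)) b = s at h ⊢
  cases p <;> cases q <;> cases r <;> cases s <;>
    simp only [cond_true, cond_false, true_and, reduceCtorEq, false_and, and_false] at h ⊢ <;>
    omega

theorem c_fin {α : Type*} [Primcodable α] {m : ℕ} {c : α → Fin m}
    (h : Computable fun n => (c n : ℕ)) : Computable c :=
  Computable.encode_iff.1 (h.of_eq fun _ => rfl)

theorem c_cv {R : ℕ → ℕ → ℕ → ℕ → ℕ → Bool}
    (hR : Computable fun q : ℕ × ℕ × ℕ × ℕ × ℕ => R q.1 q.2.1 q.2.2.1 q.2.2.2.1 q.2.2.2.2)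
    (k : ℕ) : Computable (cv R k) := by
  unfold cv
  have h1 : Computable fun n => (bif b0 n then 1 else 0 : ℕ) :=
    ccond c_b0 (Computable.const 1) (Computable.const 0)
  have h2 : Computable fun n => (bif C (g1 (WR R)) n then 1 else 0 : ℕ) :=
    ccond (c_C (c_g1 (c_WR2 hR))) (Computable.const 1) (Computable.const 0)
  have h3 : Computable fun n => cG R k n % k :=
    (Primrec.nat_mod.to_comp).comp (c_cG hR k) (Computable.const k)
  fun_prop

/-- The slow second coordinate. -/
def BB (R : ℕ → ℕ → ℕ → ℕ → ℕ → Bool) (l : ℕ) : ℕ := bb R (mu l) (la l)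

/-- The relation between consecutive terms. -/
def QQ (R : ℕ → ℕ → ℕ → ℕ → ℕ → Bool) (m h : ℕ) : Bool :=
  decide (mu m < la h) && (decide (mu m < BB R h + 1) && okb R (mu h) (BB R h) (la h))

/-- Let `g` be a colouring of pairs of natural numbers with `k` colours whose graph is `Σ⁰₂`
(equivalently: `g` is computable in `0'`). There is a computable colouring `c` of the positive
integers with `4 k` colours such that for every infinite set `X` of positive integers, all of whose
sums of at most two distinct elements get the same colour, there are sequences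
`α 0 ≤ β 0 < α 1 ≤ β 1 < ...` computable in `X` and a colour `t` with `g (α i) (β j) = t` whenever
`i ≤ j`. -/
theorem result (k : ℕ) (g : ℕ → ℕ → ℕ) (hgk : ∀ a b, g a b < k)
    (R : ℕ → ℕ → ℕ → ℕ → ℕ → Bool)
    (hR : Computable fun q : ℕ × ℕ × ℕ × ℕ × ℕ => R q.1 q.2.1 q.2.2.1 q.2.2.2.1 q.2.2.2.2)
    (hg : ∀ a b t, g a b = t ↔ ∃ u, ∀ v, R a b t u v = true) :
    ∃ c : ℕ → Fin (4 * k), Computable c ∧
      ∀ X : Set ℕ, X.Infinite → 0 ∉ X →
        (∃ i, ∀ F : Finset ℕ, (F : Set ℕ) ⊆ X → F.Nonempty → F.card ≤ 2 →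
          c (∑ n ∈ F, n) = i) →
        ∃ (α β : ℕ → ℕ) (t : ℕ),
          TuringReducible (fun n => Part.some (α n)) (char X) ∧
          TuringReducible (fun n => Part.some (β n)) (char X) ∧
          (∀ n, α n ≤ β n ∧ β n < α (n + 1)) ∧ ∀ i j, i ≤ j → g (α i) (β j) = t := by
  classical
  have hk : 0 < k := lt_of_le_of_lt (Nat.zero_le _) (hgk 0 0)
  refine ⟨fun n => ⟨cv R k n, cv_lt R hk n⟩, c_fin (c_cv hR k),
    fun X hX h0 hc => ?_⟩
  have hp : Ps X := ps_of h0
  have hcc : Const2 (fun n => (⟨cv R k n, cv_lt R hk n⟩ : Fin (4 * k))) X := hc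
  -- the components
  have hcomp : ∀ {κ : Type} (f : ℕ → κ), (∀ a b, cv R k a = cv R k b → f a = f b) →
      Const2 f X := by
    intro κ f hf
    obtain ⟨i, hi⟩ := hc
    obtain ⟨x, hx⟩ := hX.nonempty
    refine ⟨f x, fun F h1 h2 h3 => hf _ _ ?_⟩
    have e1 := hi F h1 h2 h3
    have e2 := hi {x} (by simpa using hx) (by simp) (by simp)
    rw [Finset.sum_singleton] at e2
    rw [← e2] at e1
    exact congrArg Fin.val e1
  have hb0 : Const2 b0 X := hcomp _ fun a b h => (cv_inj h).1
  have hb1 : Const2 (C (g1 (WR R))) X := hcomp _ fun a b h => (cv_inj h).2.1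
  have hb2 : Const2 (fun n => cG R k n % k) X := hcomp _ fun a b h => (cv_inj h).2.2
  have hf := hb0.far hX hp
  have hM : ModOK (WR R) X := modOK mon_WR hp hf (hb1.eq2 hp)
  have hcG : ∀ h ∈ X, ∀ l ∈ X, Sep h l → cG R k (h + l) % k = cG R k l % k := by
    obtain ⟨i, h1, h2⟩ := hb2.one
    intro h hh l hl hs
    have e1 := h2 h hh l hl (sep_ne (hp h hh) hs)
    have e2 := h1 l hl
    exact e1.trans e2.symm
  have hE := fun {h l l' : ℕ} => end_hom (h := h) (l := l) (l' := l') hk hp hM hcG
  -- the relation is satisfied by far elements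
  have hfar : ∀ m, ∃ N, ∀ l ∈ X, N < la l → QQ R m l = true := by
    intro m
    obtain ⟨N, hN⟩ := exists_bb hg (mu m)
    refine ⟨max N (mu m), fun l hl hl2 => ?_⟩
    have h1 := hN (la l) (by omega) (mu l)
    unfold QQ BB
    rw [decide_eq_true (show mu m < la l by omega), h1.1,
      decide_eq_true (show mu m < bb R (mu l) (la l) + 1 by omega)]
    rfl
  have hQval : ∀ h ∈ X, ∀ l ∈ X, QQ R h l = true →
      Sep h l ∧ g (mu h) (BB R l) = G R k (mu l) (mu h) (la l) := by
    intro h hh l hl hQ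
    unfold QQ at hQ
    rw [Bool.and_eq_true, Bool.and_eq_true, decide_eq_true_eq, decide_eq_true_eq] at hQ
    exact ⟨hQ.1, (G_true hgk hg (oky hM hl) hQ.2.2 (by have := hQ.2.1; unfold BB at this; omega)).symm⟩
  -- the limit colour
  have hQl : ∀ h ∈ X, ∃ l ∈ X, QQ R h l = true := by
    intro h hh
    obtain ⟨N, hN⟩ := hfar h
    obtain ⟨l, hl, hl2⟩ := hf N
    exact ⟨l, hl, hN l hl hl2⟩
  obtain ⟨t, ht⟩ : ∃ t, ∀ N, ∃ x ∈ X, N < la x ∧ ∃ l ∈ X, QQ R x l = true ∧
      G R k (mu l) (mu x) (la l) = t := by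
    by_contra hcon
    push Not at hcon
    choose N hN using hcon
    obtain ⟨x, hx, hx2⟩ := hf ((Finset.range k).sup N)
    obtain ⟨l, hl, hl2⟩ := hQl x hx
    have h1 : N (G R k (mu l) (mu x) (la l)) ≤ (Finset.range k).sup N :=
      Finset.le_sup (f := N) (Finset.mem_range.2 (G_lt hk _ _ _))
    exact hN _ x hx (by omega) l hl hl2 rfl
  let P : ℕ → Prop := fun x => x ∈ X ∧ ∃ l, l ∈ X ∧ (QQ R x l = true ∧
    G R k (mu l) (mu x) (la l) = t)
  have cBB : Computable (BB R) := by
    unfold BB
    exact c_bb hR (c_mu Computable.id) (c_la Computable.id)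
  have cQQ : Computable fun p : ℕ × ℕ => QQ R p.1 p.2 := by
    unfold QQ
    have e1 : Computable fun p : ℕ × ℕ => BB R p.2 := cBB.comp (by fun_prop)
    exact cand (c_dlt (c_mu (by fun_prop)) (c_la (by fun_prop)))
      (cand (c_dlt (c_mu (by fun_prop)) (by fun_prop))
        (c_okb hR (c_mu (by fun_prop)) e1 (c_la (by fun_prop))))
  have cGG : Computable fun p : ℕ × ℕ => G R k (mu p.2) (mu p.1) (la p.2) :=
    c_G hR k (c_mu (by fun_prop)) (c_mu (by fun_prop)) (c_la (by fun_prop))
  have r0 : ∀ b : Bool, REIn X fun x : ℕ => ∃ l, l ∈ X ∧ (QQ R x l = true ∧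
      decide (G R k (mu l) (mu x) (la l) = t) = b) := by
    intro b
    refine REIn.ex (S := fun x l => l ∈ X ∧ (QQ R x l = true ∧
      decide (G R k (mu l) (mu x) (la l) = t) = b)) ?_
    refine REIn.and (REIn.mem (by fun_prop)) (REIn.and (REIn.of_re (RE.of_bool cQQ)) ?_)
    have e1 : Computable fun p : ℕ × ℕ => decide (G R k (mu p.2) (mu p.1) (la p.2) = t) :=
      c_deq cGG (Computable.const t)
    cases b
    · refine (REIn.of_re (RE.of_bool (cnot e1))).of_eq fun p => ?_
      rw [Bool.not_eq_true']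
    · exact REIn.of_re (RE.of_bool e1)
  have r1 : REIn X P := by
    refine (REIn.and (REIn.mem Computable.id) (r0 true)).of_eq fun x => ?_
    simp only [decide_eq_true_eq, id]
    exact Iff.rfl
  have r2 : REIn X fun x => ¬ P x := by
    refine (REIn.or (REIn.not_mem Computable.id) (REIn.and (REIn.mem Computable.id)
      (r0 false))).of_eq fun x => ?_
    simp only [decide_eq_false_iff_not, id]
    constructor
    · rintro (h1 | ⟨h1, l, hl, h2, h3⟩)
      · exact fun h => h1 h.1
      · rintro ⟨_, l', hl', h2', h3'⟩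
        apply h3
        rw [← h3']
        exact hE h1 hl hl' (hQval x h1 l hl h2).1 (hQval x h1 l' hl' h2').1
    · intro h
      by_cases hx : x ∈ X
      · right
        refine ⟨hx, ?_⟩
        obtain ⟨l, hl, hl2⟩ := hQl x hx
        exact ⟨l, hl, hl2, fun h3 => h ⟨hx, l, hl, hl2, h3⟩⟩
      · exact Or.inl hx
  have hP : ∀ N, ∃ h, P h ∧ N < la h := by
    intro N
    obtain ⟨x, hx, h1, l, hl, h2, h3⟩ := ht N
    exact ⟨x, ⟨hx, l, hl, h2, h3⟩, h1⟩
  obtain ⟨f, f1, f2, f3⟩ := exists_seq2 (Q := QQ R) cQQ r1 r2 (by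
      obtain ⟨h, h1, _⟩ := hP 0
      exact ⟨h, h1⟩) (fun m => by
      obtain ⟨N, hN⟩ := hfar m
      obtain ⟨h, h1, h2⟩ := hP N
      exact ⟨h, h1, hN h h1.1 h2⟩)
  have hsep : ∀ n, mu (f n) < la (f (n + 1)) := fun n =>
    (hQval _ (f2 n).1 _ (f2 (n + 1)).1 (f3 n)).1
  have hB : ∀ n, mu (f n) ≤ BB R (f (n + 1)) := fun n => by
    have h1 := f3 n
    unfold QQ at h1
    rw [Bool.and_eq_true, Bool.and_eq_true, decide_eq_true_eq, decide_eq_true_eq] at h1
    omega
  have hmono : ∀ i j, i ≤ j → mu (f i) ≤ mu (f j) := by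
    intro i j hij
    induction hij with
    | refl => exact le_rfl
    | @step m _ ih =>
      have h1 := hsep m
      have h2 := la_le_mu (hp _ (f2 (m + 1)).1)
      show mu (f i) ≤ mu (f (m + 1))
      omega
  have hT : ∀ q : ℕ → ℕ, Computable q → TuringReducible (fun n => Part.some (q (f n)))
      (char X) := fun q hq => tot_tr ((TotIn.of_comp (A := X) hq).comp f1)
  have f1' : TotIn X fun n => f (n + 1) :=
    f1.comp (TotIn.of_comp (A := X) (f := fun n : ℕ => n + 1) (by fun_prop))
  have hT' : TuringReducible (fun n => Part.some (BB R (f (n + 1)))) (char X) :=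
    tot_tr ((TotIn.of_comp (A := X) cBB).comp f1')
  refine ⟨fun n => mu (f n), fun n => BB R (f (n + 1)), t, hT mu (c_mu Computable.id), hT',
    fun n => ⟨hB n, ?_⟩, fun i j hij => ?_⟩
  · have h1 := hsep n
    have h2 : BB R (f (n + 1)) < la (f (n + 1)) := grt_lt (by omega)
    have h3 := la_le_mu (hp _ (f2 (n + 1)).1)
    dsimp only
    omega
  · have h1 : QQ R (f i) (f (j + 1)) = true := by
      have h2 := f3 j
      have h3 := hmono i j hij
      unfold QQ at h2 ⊢
      rw [Bool.and_eq_true, Bool.and_eq_true, decide_eq_true_eq, decide_eq_true_eq] at h2 ⊢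
      exact ⟨by omega, by omega, h2.2.2⟩
    obtain ⟨l, hl, h4, h5⟩ := (f2 i).2
    rw [(hQval _ (f2 i).1 _ (f2 (j + 1)).1 h1).2, ← h5]
    exact hE (f2 i).1 (f2 (j + 1)).1 hl (hQval _ (f2 i).1 _ (f2 (j + 1)).1 h1).1
      (hQval _ (f2 i).1 _ hl h4).1

end Pool.Agent.Results.MP_69fea5_lc.PolarizedRamseySumsOfTwo
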