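import Pool.Agent.N640.HU.Main

/-!
A computable colouring of the natural numbers with two colours all of whose solutions for
Hindman's theorem compute the double jump, by one and the same procedure which uses positive
information about the solution only.
-/

namespace Pool.Agent.Results.MP_69fea5_lc.TwoColourDoubleJump

open Pool.Agent.N640.HU

/-- The characteristic function of a set of natural numbers, as a function which is defined
everywhere. -/
noncomputable def char (B : Set ℕ) : ℕ →. ℕ := by
  classical exact fun n => Part.some (if n ∈ B then 1 else 0)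

/-- `X` is a solution of Hindman's theorem for the colouring `c`: an infinite set of positive
integers all of whose sums of finitely many distinct elements get the same colour. -/
def Solution (c : ℕ → Bool) (X : Set ℕ) : Prop :=
  X.Infinite ∧ 0 ∉ X ∧
    ∃ i, ∀ F : Finset ℕ, (F : Set ℕ) ⊆ X → F.Nonempty → c (∑ n ∈ F, n) = i

/-- A set of positive integers which contains multiples of all powers of `3`, and all of whose
sums of at most four distinct elements get the same colour. -/
def SolutionFour (c : ℕ → Bool) (X : Set ℕ) : Prop :=
  0 ∉ X ∧ (∀ N, ∃ x ∈ X, 3 ^ N ∣ x) ∧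
    ∃ i, ∀ F : Finset ℕ, (F : Set ℕ) ⊆ X → F.Nonempty → F.card ≤ 4 → c (∑ n ∈ F, n) = i

/-- The set `S` is enumerated from positive information about the members of the family `𝓕`, by
one procedure for all of them: there is a recursively enumerable relation `P` such that for all
members `X` of the family, `n` is in `S` if and only if `P n D` for a finite list `D` of elements
of `X`. -/
def UniformlyEnumerated (𝓕 : Set ℕ → Prop) (S : Set ℕ) : Prop :=
  ∃ P : ℕ → List ℕ → Prop, REPred (fun x : ℕ × List ℕ => P x.1 x.2) ∧
    ∀ X, 𝓕 X → ∀ n, n ∈ S ↔ ∃ D, P n D ∧ ∀ x ∈ D, x ∈ X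

/-- There is a computable colouring `c` of the natural numbers with two colours such that every
`Σ⁰₂` set and its complement are uniformly enumerated from the solutions of Hindman's theorem for
`c`, and also from the sets in `SolutionFour c`; in particular each of these sets computes every
`Σ⁰₂` set. -/
theorem result :
    ∃ c : ℕ → Bool, Computable c ∧
      ∀ R : ℕ → ℕ → ℕ → Bool, Computable (fun q : ℕ × ℕ × ℕ => R q.1 q.2.1 q.2.2) →
        (UniformlyEnumerated (Solution c) {n | ∃ a, ∀ b, R n a b = true} ∧
          UniformlyEnumerated (Solution c) {n | ∃ a, ∀ b, R n a b = true}ᶜ) ∧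
        (UniformlyEnumerated (SolutionFour c) {n | ∃ a, ∀ b, R n a b = true} ∧
          UniformlyEnumerated (SolutionFour c) {n | ∃ a, ∀ b, R n a b = true}ᶜ) ∧
        ∀ X, Solution c X ∨ SolutionFour c X →
          TuringReducible (char {n | ∃ a, ∀ b, R n a b = true}) (char X) := by
  refine ⟨cf, c_cf, fun R hR => ?_⟩
  have h1 := uniform (𝓕 := Solution cf) ue_FS
    (fun X hX => good_FS hX.1 hX.2.1 hX.2.2) hR
  have h2 := uniform (𝓕 := SolutionFour cf) (ue_Sk 2)
    (fun X hX => good_Sk hX.1 hX.2.1 hX.2.2) hR
  refine ⟨h1, h2, ?_⟩
  rintro X (hX | hX)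
  · exact Pool.Agent.Helper446.Oracle.turingReducible_iff.2 ⟨h1.1.reIn hX, h1.2.reIn hX⟩
  · exact Pool.Agent.Helper446.Oracle.turingReducible_iff.2 ⟨h2.1.reIn hX, h2.2.reIn hX⟩

end Pool.Agent.Results.MP_69fea5_lc.TwoColourDoubleJump
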